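import Pool.Agent.Helper20.CP.Spec

/-!
# CP, part A1: the competition is won by red at vertices far from the blue source
-/

set_option autoImplicit false

open MeasureTheory ProbabilityTheory Filter Topology
open scoped ENNReal

namespace Pool.Agent.Helper74.CP.A1

open Pool.Agent.Helper20.CP

variable {X V : Type} {vt : X → V} {σ : Equiv.Perm X}

theorem reach_trans : ∀ (k l : ℕ) (u v z : V), Reach vt σ k u v → Reach vt σ l v z →
    Reach vt σ (k + l) u z := by
  intro k
  induction k with
  | zero =>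
    intro l u v z h1 h2
    have h1 : u = v := h1
    subst h1
    simpa using h2
  | succ k ih =>
    intro l u v z h1 h2
    obtain ⟨x, hx, h1⟩ := h1
    have h3 := ih l _ v z h1 h2
    have : k + 1 + l = (k + l) + 1 := by ring
    rw [this]
    exact ⟨x, hx, h3⟩

theorem reach_one (x : X) : Reach vt σ 1 (vt x) (vt (σ x)) := ⟨x, rfl, rfl⟩

theorem reach_symm (hσ : ∀ x, σ (σ x) = x) : ∀ (k : ℕ) (u v : V), Reach vt σ k u v →
    Reach vt σ k v u := by
  intro k
  induction k with
  | zero =>
    intro u v h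
    have h : u = v := h
    exact h.symm
  | succ k ih =>
    intro u v h
    obtain ⟨x, hx, h⟩ := h
    have h1 := ih _ _ h
    have h2 : Reach vt σ 1 (vt (σ x)) (vt (σ (σ x))) := reach_one (σ x)
    rw [hσ x, hx] at h2
    exact reach_trans k 1 v _ u h1 h2

theorem redWalk_reach {w : Sym2 X → ℝ × ℝ} {c : ℝ} (hc : ∀ p, c ≤ (w p).1) :
    ∀ (k : ℕ) (m : ℝ) (u v : V), RedWalk vt σ w k m u v → Reach vt σ k u v ∧ k * c ≤ m := by
  intro k
  induction k with
  | zero =>
    intro m u v h
    obtain ⟨h1, h2⟩ := h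
    exact ⟨h1, by simpa using h2⟩
  | succ k ih =>
    intro m u v h
    obtain ⟨x, hx, h⟩ := h
    obtain ⟨h1, h2⟩ := ih _ _ _ h
    refine ⟨⟨x, hx, h1⟩, ?_⟩
    have := hc s(x, σ x)
    push_cast
    linarith

theorem blue_back {w : Sym2 X → ℝ × ℝ} {coin : V → Bool} {r b : V} {t : V → ℝ≥0∞}
    {red blue : Set V} {d : ℝ} (hd : 0 < d) (hw : ∀ p, d ≤ (w p).2)
    (ho : Outcome vt σ w coin r b t red blue) (hrb : r ≠ b) :
    ∀ (N : ℕ) (v : V), v ∈ blue → (t v).toReal ≤ N * d →
      ∃ i : ℕ, Reach vt σ i b v ∧ i * d ≤ (t v).toReal := by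
  have hr : r ∈ red := (ho.src hrb).1
  have key : ∀ v ∈ blue, v ≠ b → ∃ x, vt x ∈ blue ∧ vt (σ x) = v ∧
      (t v).toReal = (t (vt x)).toReal + (w s(x, σ x)).2 := by
    intro v hv hvb
    have hvr : v ≠ r := by
      rintro rfl
      exact Set.disjoint_left.mp ho.disj hr hv
    obtain ⟨x, hx, hxv, hxt⟩ := ho.fromB v hv hvr hvb
    refine ⟨x, hx, hxv, ?_⟩
    have h1 : t (vt x) ≠ ⊤ := (ho.fin _).1 (Or.inr hx)
    rw [hxt, ENNReal.toReal_add h1 ENNReal.ofReal_ne_top, ENNReal.toReal_ofReal]
    exact hd.le.trans (hw _)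
  intro N
  induction N with
  | zero =>
    intro v hv hvt
    by_cases hvb : v = b
    · subst hvb
      exact ⟨0, rfl, by simp⟩
    · exfalso
      obtain ⟨x, -, -, hx⟩ := key v hv hvb
      have := hw s(x, σ x)
      have h2 : 0 ≤ (t (vt x)).toReal := ENNReal.toReal_nonneg
      simp at hvt
      linarith
  | succ N ih =>
    intro v hv hvt
    by_cases hvb : v = b
    · subst hvb
      exact ⟨0, rfl, by simp⟩
    · obtain ⟨x, hxb, hxv, hx⟩ := key v hv hvb
      have h1 := hw s(x, σ x)
      obtain ⟨i, hi, hid⟩ := ih (vt x) hxb (by push_cast at hvt; linarith)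
      refine ⟨i + 1, ?_, by push_cast; linarith⟩
      rw [← hxv]
      exact reach_trans i 1 b _ _ hi (reach_one x)

theorem main : S_A := by
  intro X V vt σ w coin r b v t red blue c lam M h hc hlam hσ hw1 hw2 ho hrb hr_b hb_v hwalk hM
  have hr : r ∈ red := (ho.src hrb).1
  have hd : 0 < lam * c := by positivity
  have main : ∀ (k : ℕ) (m : ℝ) (u : V) (j : ℕ), RedWalk vt σ w k m u v → u ∈ red →
      (t u).toReal ≤ M - m → Reach vt σ j r u → j * c ≤ M - m → v ∈ red := by
    intro k
    induction k with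
    | zero =>
      intro m u j hk hu _ _ _
      obtain ⟨h1, -⟩ := hk
      rw [← h1]; exact hu
    | succ k ih =>
      intro m u j hk hu htu hj hjc
      obtain ⟨x, hx, hk⟩ := hk
      have hp := ho.passR x (by rw [hx]; exact hu)
      have hut : t u ≠ ⊤ := (ho.fin _).1 (Or.inl hu)
      rw [hx] at hp
      have hc1 := hw1 s(x, σ x)
      have hfin : t u + ENNReal.ofReal (w s(x, σ x)).1 ≠ ⊤ :=
        ENNReal.add_ne_top.2 ⟨hut, ENNReal.ofReal_ne_top⟩
      have hp' : t (vt (σ x)) ≠ ⊤ := ne_top_of_le_ne_top hfin hp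
      have hle : (t (vt (σ x))).toReal ≤ (t u).toReal + (w s(x, σ x)).1 := by
        have := ENNReal.toReal_mono hfin hp
        rwa [ENNReal.toReal_add hut ENNReal.ofReal_ne_top,
          ENNReal.toReal_ofReal (hc.le.trans hc1)] at this
      have hreach : Reach vt σ (j + 1) r (vt (σ x)) := by
        refine reach_trans j 1 r u _ hj ?_
        rw [← hx]; exact reach_one x
      rcases (ho.fin _).2 hp' with hred | hblue
      · exact ih _ _ (j + 1) hk hred (by linarith) hreach (by push_cast; linarith)
      · exfalso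
        obtain ⟨N, hN⟩ := exists_nat_ge ((t (vt (σ x))).toReal / (lam * c))
        obtain ⟨i, hi, hid⟩ := blue_back hd hw2 ho hrb N (vt (σ x)) hblue
          (by rwa [div_le_iff₀ hd] at hN)
        obtain ⟨h1, h2⟩ := redWalk_reach hw1 k _ _ _ hk
        have hbv := reach_trans i k b _ v hi h1
        have hrb' := reach_trans (j + 1) i r _ b hreach (reach_symm hσ _ _ _ hi)
        have e1 : h < ((i + k : ℕ) : ℝ) := by
          by_contra hcon
          exact hb_v _ (not_lt.1 hcon) hbv
        have e2 : h < ((j + 1 + i : ℕ) : ℝ) := by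
          by_contra hcon
          exact hr_b _ (not_lt.1 hcon) hrb'
        push_cast at e1 e2
        -- s = M - (m - w1)
        have f1 : (i : ℝ) * (lam * c) ≤ M - (m - (w s(x, σ x)).1) := by linarith
        have f2 : ((j : ℝ) + 1) * c ≤ M - (m - (w s(x, σ x)).1) := by linarith
        have f3 : (k : ℝ) * c ≤ m - (w s(x, σ x)).1 := h2
        set s := M - (m - (w s(x, σ x)).1) with hs
        have f3' : (k : ℝ) * c ≤ M - s := by rw [hs]; linarith
        have g1 : lam * c * h < s + lam * (M - s) := by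
          have : lam * c * h < lam * c * (i + k) := by
            apply mul_lt_mul_of_pos_left e1 hd
          nlinarith
        have g2 : lam * c * h < s + lam * s := by
          have : lam * c * h < lam * c * (j + 1 + i) := by
            apply mul_lt_mul_of_pos_left e2 hd
          nlinarith
        have g3 : (1 + lam) * (lam * c * h) < (1 + lam) * (s + lam * (M - s)) :=
          mul_lt_mul_of_pos_left g1 (by linarith)
        have g4 : (lam - 1) * (lam * c * h) < (lam - 1) * (s + lam * s) :=
          mul_lt_mul_of_pos_left g2 (by linarith)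
        have g5 : lam * (2 * lam * c * h) < lam * (M * (lam + 1)) := by
          nlinarith
        have g6 := lt_of_mul_lt_mul_left g5 (by linarith)
        linarith
  obtain ⟨k, hk⟩ := hwalk
  refine main k M r 0 hk hr ?_ rfl (by simp)
  rw [ho.srcr]; simp

end Pool.Agent.Helper74.CP.A1
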