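import Pool.Agent.Helper71.CP.STEP

/-!
# CP, part RAY: the ray hits a given set of half-edges
-/

set_option autoImplicit false

open MeasureTheory ProbabilityTheory Filter Topology
open scoped ENNReal

namespace Pool.Agent.Helper74.CP.RAY

open Pool.Agent.Helper20.CP Pool.Agent.Helper71.CP

section

variable {X : Type} [DecidableEq X]

/-- the exploration from `e` does not meet `W`, or leaves `S` -/
def Fail (nx : Equiv.Perm X) (W : Finset X) : ℕ → Finset X → Equiv.Perm X → X → Prop
  | 0, _, _, _ => True
  | r + 1, S, σ, e => σ e ∉ W ∧ (nx (σ e) ∉ (S.erase e).erase (σ e) ∨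
      Fail nx W r ((S.erase e).erase (σ e)) σ (nx (σ e)))

theorem fail_of_ray {nx : Equiv.Perm X} {W : Finset X} (hW : ∀ x, nx x ∈ W ↔ x ∈ W)
    {σ : Equiv.Perm X} : ∀ (r : ℕ) (S : Finset X) (e : X),
    (∀ i, 1 ≤ i → i ≤ r → ray nx σ e i ∉ W) → Fail nx W r S σ e := by
  intro r
  induction r with
  | zero => intro S e _; trivial
  | succ r ih =>
    intro S e h
    refine ⟨?_, Or.inr (ih _ _ ?_)⟩
    · have := h 1 le_rfl (by omega)
      rw [← hW]
      exact this
    · intro i hi1 hir
      have := h (i + 1) (by omega) (by omega)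
      have h2 : ray nx σ e (i + 1) = ray nx σ (nx (σ e)) i := by
        unfold ray
        rw [Function.iterate_succ_apply]
      rwa [h2] at this

theorem fail_congr {nx : Equiv.Perm X} {W : Finset X} {σ σ' : Equiv.Perm X} :
    ∀ (r : ℕ) (S : Finset X) (e : X), e ∈ S → (∀ y ∈ S, σ y = σ' y) →
      (Fail nx W r S σ e ↔ Fail nx W r S σ' e) := by
  intro r
  induction r with
  | zero => intro S e _ _; exact Iff.rfl
  | succ r ih =>
    intro S e he h
    have h1 := h e he
    unfold Fail
    rw [h1]
    apply and_congr_right
    intro _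
    by_cases h2 : nx (σ' e) ∈ (S.erase e).erase (σ' e)
    · have h3 := ih ((S.erase e).erase (σ' e)) (nx (σ' e)) h2
        (fun y hy => h y (Finset.mem_of_mem_erase (Finset.mem_of_mem_erase hy)))
      simp only [h2, not_true_eq_false, false_or]
      exact h3
    · simp [h2]

end

variable {X : Type} [Fintype X] [DecidableEq X]

open Classical in
theorem count {nx : Equiv.Perm X} {W : Finset X} (hnx : ∀ x, nx x ≠ x) {R0 : ℕ}
    (hX : 2 * R0 + 1 < Fintype.card X) (hWc : 2 * R0 + 1 ≤ W.card) (ρ β : ℝ)
    (hρ : ρ = 1 - ((W.card : ℝ) - 2 * R0 - 1) / Fintype.card X)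
    (hβ : β = (2 * R0 + 1) / ((Fintype.card X : ℝ) - 2 * R0 - 1)) :
    ∀ (r : ℕ) (S : Finset X) (e : X), e ∈ S → Fintype.card X + 2 * r ≤ S.card + 2 * R0 →
      ∑ σ ∈ invo S, (if Fail nx W r S σ e then (1 : ℝ) else 0) ≤
        (invo S).card * (ρ ^ r + r * β) := by
  have hXr : (2 * (R0 : ℝ) + 1) < Fintype.card X := by exact_mod_cast hX
  have hWr : (2 * (R0 : ℝ) + 1) ≤ W.card := by exact_mod_cast hWc
  have hXpos : (0 : ℝ) < Fintype.card X := by
    have : (0 : ℝ) ≤ R0 := Nat.cast_nonneg _
    linarith
  have hWX : (W.card : ℝ) ≤ Fintype.card X := by exact_mod_cast Finset.card_le_univ W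
  have hR0 : (0 : ℝ) ≤ R0 := Nat.cast_nonneg _
  have hρ0 : 0 ≤ ρ := by
    rw [hρ, sub_nonneg, div_le_one hXpos]; linarith
  have hρ1 : ρ ≤ 1 := by
    rw [hρ, sub_le_self_iff]
    apply div_nonneg <;> linarith
  have hβ0 : 0 ≤ β := by
    rw [hβ]; apply div_nonneg <;> linarith
  intro r
  induction r with
  | zero =>
    intro S e _ _
    simp [Fail]
  | succ r ih =>
    intro S e he hS
    rw [step S e he]
    have hScard : 1 ≤ S.card := Finset.card_pos.2 ⟨e, he⟩
    have hSr : (Fintype.card X : ℝ) + 2 * (r + 1) ≤ S.card + 2 * R0 := by exact_mod_cast hS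
    set s : ℝ := (S.card : ℝ) - 1 with hs
    have hr0 : (0 : ℝ) ≤ r := Nat.cast_nonneg _
    have hspos : 0 < s := by rw [hs]; linarith
    set c' : ℝ := ((invo S).card : ℝ) / s with hc'
    have hc'0 : 0 ≤ c' := by positivity
    have hcard : ∀ x ∈ S.erase e, ((invo ((S.erase e).erase x)).card : ℝ) = c' := by
      intro x hx
      have h1 := card_step' he hx
      rw [hc', eq_div_iff hspos.ne', hs, h1]
      push_cast [hScard]
      ring
    have hinner : ∀ x ∈ S.erase e, ∑ σ ∈ invo ((S.erase e).erase x),
        (if Fail nx W (r + 1) S (Equiv.swap e x * σ) e then (1 : ℝ) else 0) ≤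
        c' * ((if nx x ∉ (S.erase e).erase x then 1 else 0) +
          (if x ∉ W then 1 else 0) * (ρ ^ r + r * β)) := by
      intro x hx
      have hB0 : 0 ≤ ρ ^ r + r * β := by positivity
      have hval : ∀ σ ∈ invo ((S.erase e).erase x), (Equiv.swap e x * σ) e = x := by
        intro σ hσ
        have h1 : σ e = e := by
          by_contra hcon
          have := ((mem_invo.1 hσ).2 e).1 hcon
          simp at this
        rw [Equiv.Perm.mul_apply, h1, Equiv.swap_apply_left]
      by_cases hxW : x ∈ W
      · -- no failure
        have h0 : ∑ σ ∈ invo ((S.erase e).erase x),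
            (if Fail nx W (r + 1) S (Equiv.swap e x * σ) e then (1 : ℝ) else 0) = 0 := by
          apply Finset.sum_eq_zero
          intro σ hσ
          rw [if_neg]
          rintro ⟨h1, -⟩
          rw [hval σ hσ] at h1
          exact h1 hxW
        rw [h0]
        have : (0 : ℝ) ≤ (if nx x ∉ (S.erase e).erase x then 1 else 0) := by
          split_ifs <;> norm_num
        simp only [hxW, not_true_eq_false, if_false, zero_mul, add_zero]
        exact mul_nonneg hc'0 this
      · by_cases hnxS : nx x ∈ (S.erase e).erase x
        · -- induction hypothesis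
          have h1 : ∀ σ ∈ invo ((S.erase e).erase x),
              (if Fail nx W (r + 1) S (Equiv.swap e x * σ) e then (1 : ℝ) else 0) =
              (if Fail nx W r ((S.erase e).erase x) σ (nx x) then (1 : ℝ) else 0) := by
            intro σ hσ
            have h2 : Fail nx W (r + 1) S (Equiv.swap e x * σ) e ↔
                Fail nx W r ((S.erase e).erase x) σ (nx x) := by
              conv_lhs => unfold Fail
              rw [hval σ hσ]
              simp only [hxW, not_false_eq_true, hnxS, not_true_eq_false, false_or, true_and]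
              apply fail_congr r _ _ hnxS
              intro y hy
              rw [Equiv.Perm.mul_apply]
              obtain ⟨h3, h4⟩ := mem_invo.1 hσ
              have h5 : σ y ∈ (S.erase e).erase x := by
                rw [← h4, h3]
                exact ((h4 y).2 hy).symm
              apply swap_of_ne
              · intro h6
                rw [h6] at h5
                simp at h5
              · intro h6
                rw [h6] at h5
                simp at h5
            simp only [h2]
          rw [Finset.sum_congr rfl h1]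
          have h2 := ih ((S.erase e).erase x) (nx x) hnxS (by
            have := card_erase2 he hx
            omega)
          rw [hcard x hx] at h2
          refine h2.trans (le_of_eq ?_)
          simp only [hnxS, not_true_eq_false, if_false, hxW, not_false_eq_true, if_true, one_mul,
            zero_add]
        · -- trivial bound
          calc ∑ σ ∈ invo ((S.erase e).erase x),
                (if Fail nx W (r + 1) S (Equiv.swap e x * σ) e then (1 : ℝ) else 0)
              ≤ ∑ σ ∈ invo ((S.erase e).erase x), (1 : ℝ) := by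
                apply Finset.sum_le_sum
                intro σ _
                split_ifs <;> norm_num
            _ = c' := by rw [Finset.sum_const, nsmul_eq_mul, mul_one, hcard x hx]
            _ ≤ _ := by
                simp only [hnxS, not_false_eq_true, if_true, hxW, one_mul]
                nlinarith
    refine (Finset.sum_le_sum hinner).trans ?_
    rw [← Finset.mul_sum, Finset.sum_add_distrib, ← Finset.sum_mul]
    -- number of bad `x`
    have hbad : ∑ x ∈ S.erase e, (if nx x ∉ (S.erase e).erase x then (1 : ℝ) else 0) ≤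
        2 * R0 + 1 := by
      rw [← Finset.sum_filter, Finset.sum_const, nsmul_eq_mul, mul_one]
      have h1 : ((S.erase e).filter (fun x => nx x ∉ (S.erase e).erase x)).card ≤
          (insert e Sᶜ).card := by
        apply Finset.card_le_card_of_injOn nx
        · intro x hx
          have hx2 := (Finset.mem_filter.1 hx).2
          simp only [Finset.mem_erase, not_and] at hx2
          rw [Finset.mem_coe, Finset.mem_insert, Finset.mem_compl]
          by_cases h3 : nx x = e
          · exact Or.inl h3
          · exact Or.inr (hx2 (hnx x) h3)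
        · exact nx.injective.injOn
      have h2 := Finset.card_insert_le e Sᶜ
      have h3 := Finset.card_compl_add_card S
      have h4 : ((S.erase e).filter (fun x => nx x ∉ (S.erase e).erase x)).card ≤ 2 * R0 + 1 := by
        omega
      exact_mod_cast h4
    have hgood : ∑ x ∈ S.erase e, (if x ∉ W then (1 : ℝ) else 0) ≤
        s - ((W.card : ℝ) - 2 * R0 - 1) := by
      rw [← Finset.sum_filter, Finset.sum_const, nsmul_eq_mul, mul_one]
      have h1 : ((S.erase e).filter (fun x => x ∉ W)).card + W.card ≤ Fintype.card X := by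
        rw [← Finset.card_union_of_disjoint]
        · exact Finset.card_le_univ _
        · rw [Finset.disjoint_left]
          intro x hx
          exact (Finset.mem_filter.1 hx).2
      have h2 : (((S.erase e).filter (fun x => x ∉ W)).card : ℝ) + W.card ≤ Fintype.card X := by
        exact_mod_cast h1
      rw [hs]
      linarith
    have hsX : s ≤ Fintype.card X := by
      have : (S.card : ℝ) ≤ Fintype.card X := by exact_mod_cast Finset.card_le_univ S
      rw [hs]; linarith
    have hgood' : s - ((W.card : ℝ) - 2 * R0 - 1) ≤ s * ρ := by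
      rw [hρ, mul_sub, mul_one]
      apply sub_le_sub_left
      rw [mul_div_assoc']
      rw [div_le_iff₀ hXpos]
      have : 0 ≤ (W.card : ℝ) - 2 * R0 - 1 := by linarith
      nlinarith
    have hbad' : 2 * (R0 : ℝ) + 1 ≤ s * β := by
      rw [hβ, mul_div_assoc', le_div_iff₀ (by linarith)]
      have : (Fintype.card X : ℝ) - 2 * R0 - 1 ≤ s := by rw [hs]; linarith
      nlinarith
    have hB0 : 0 ≤ ρ ^ r + r * β := by positivity
    have hfin : (∑ x ∈ S.erase e, (if nx x ∉ (S.erase e).erase x then (1 : ℝ) else 0)) +
        (∑ x ∈ S.erase e, (if x ∉ W then (1 : ℝ) else 0)) * (ρ ^ r + r * β) ≤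
        s * (ρ ^ (r + 1) + (r + 1) * β) := by
      have h1 := mul_le_mul_of_nonneg_right (hgood.trans hgood') hB0
      have h2 := hbad.trans hbad'
      have h3 : s * ρ * (r * β) ≤ s * 1 * (r * β) := by
        apply mul_le_mul_of_nonneg_right _ (by positivity)
        exact mul_le_mul_of_nonneg_left hρ1 hspos.le
      calc _ ≤ s * β + s * ρ * (ρ ^ r + r * β) := add_le_add h2 h1
        _ = s * β + s * ρ ^ (r + 1) + s * ρ * (r * β) := by ring
        _ ≤ s * β + s * ρ ^ (r + 1) + s * 1 * (r * β) := by linarith
        _ = s * (ρ ^ (r + 1) + (r + 1) * β) := by ring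
    have := mul_le_mul_of_nonneg_left hfin hc'0
    refine this.trans (le_of_eq ?_)
    rw [hc', ← mul_assoc, div_mul_cancel₀ _ hspos.ne']
    push_cast
    ring

theorem main : S_RAY := by
  classical
  intro X _ _ nx hnx W hW e R hX hWc
  have hc := count (nx := nx) hnx hX hWc _ _ rfl rfl R Finset.univ e (Finset.mem_univ _)
    (by rw [Finset.card_univ])
  rw [invo_univ] at hc
  set B : ℝ := (1 - ((W.card : ℝ) - 2 * R - 1) / Fintype.card X) ^ R +
    R * ((2 * R + 1) / ((Fintype.card X : ℝ) - 2 * R - 1)) with hB
  have hB' : (1 - ((W.card : ℝ) - 2 * R - 1) / Fintype.card X) ^ R +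
    R * (2 * R + 1) / ((Fintype.card X : ℝ) - 2 * R - 1) = B := by
    rw [hB, mul_div_assoc]
  rw [hB']
  unfold avg
  apply ENNReal.div_le_of_le_mul
  have h1 : ∑ σ ∈ pairings X, ind (∀ i, 1 ≤ i → i ≤ R → ray nx σ e i ∉ W) ≤
      ENNReal.ofReal (∑ σ ∈ pairings X,
        (if Fail nx W R Finset.univ σ e then (1 : ℝ) else 0)) := by
    rw [ENNReal.ofReal_sum_of_nonneg (by intro σ _; split_ifs <;> norm_num)]
    apply Finset.sum_le_sum
    intro σ _
    unfold ind
    by_cases h : ∀ i, 1 ≤ i → i ≤ R → ray nx σ e i ∉ W
    · rw [if_pos h, if_pos (fail_of_ray hW R _ _ h)]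
      simp
    · rw [if_neg h]
      exact zero_le
  refine h1.trans ?_
  refine (ENNReal.ofReal_le_ofReal hc).trans ?_
  rw [ENNReal.ofReal_mul (Nat.cast_nonneg _), ENNReal.ofReal_natCast, mul_comm]

end Pool.Agent.Helper74.CP.RAY
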